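import Pool.Agent.Q65.Rational3Arc

/-!
# MP_db9acb_an: unbounded solutions of `x_{n+1} = (α + x_n) / (C x_{n-1} + x_{n-2})`

For `α = 729/6400` and `C = 20/9` there are unbounded solutions.  In logarithmic variables the
solution is close to a cycle of length six whose shape drifts slowly; whenever the shape has gone
once around, the size has grown by the factor `C ^ 3 * (α * C ^ 2) ^ 2 = 3.4...`.
-/

set_option autoImplicit false

namespace Pool.Agent.Results.MP_db9acb_an.Unbounded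

/-- `x` is a solution of the recursion with parameters `α, C`; the index is shifted by two, so
`x 0, x 1, x 2` are the (nonnegative) initial values `x_{-2}, x_{-1}, x_0`; all denominators are
positive. -/
def IsSolution (α C : ℝ) (x : ℕ → ℝ) : Prop :=
  (0 ≤ x 0 ∧ 0 ≤ x 1 ∧ 0 ≤ x 2) ∧ (∀ n, 0 < C * x (n + 1) + x n) ∧
    ∀ n, x (n + 3) = (α + x (n + 2)) / (C * x (n + 1) + x n)

open Q65.Rational3

lemma pos_of {x : ℕ → ℝ} (hx : IsSolution (729 / 6400) (20 / 9) x) (h0 : 0 < x 0) (h1 : 0 < x 1)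
    (h2 : 0 < x 2) : ∀ n, 0 < x n ∧ 0 < x (n + 1) ∧ 0 < x (n + 2) := by
  intro n
  induction n with
  | zero => exact ⟨h0, h1, h2⟩
  | succ n ih =>
    refine ⟨ih.2.1, ih.2.2, ?_⟩
    rw [show n + 1 + 2 = n + 3 by ring, hx.2.2 n]
    exact div_pos (by linarith [ih.2.2]) (hx.2.1 n)

/-- running to the end of the arc -/
lemma arc_end {x : ℕ → ℝ} (hx : IsSolution (729 / 6400) (20 / 9) x) {T : ℝ} {n : ℕ}
    (h : Arc T (x n) (x (n + 1)) (x (n + 2))) :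
    ∃ m : ℕ, Arc T (x m) (x (m + 1)) (x (m + 2)) ∧ T ≤ x (m + 2) / x (m + 1) := by
  by_contra hcon
  push Not at hcon
  have key : ∀ k : ℕ, Arc T (x (n + 6 * k)) (x (n + 6 * k + 1)) (x (n + 6 * k + 2)) ∧
      (3 / 2) ^ k * (x (n + 2) / x (n + 1)) ≤ x (n + 6 * k + 2) / x (n + 6 * k + 1) := by
    intro k
    induction k with
    | zero => simpa using h
    | succ k ih =>
      have r := hx.2.2
      obtain ⟨a1, a2⟩ := ih.1.step (r (n + 6 * k)) (r (n + 6 * k + 1)) (r (n + 6 * k + 2))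
        (r (n + 6 * k + 3)) (r (n + 6 * k + 4)) (r (n + 6 * k + 5)) (hcon _ ih.1).le
      refine ⟨a1, ?_⟩
      have e : n + 6 * (k + 1) = n + 6 * k + 6 := by ring
      rw [e, pow_succ]
      have i2 := ih.2
      calc (3 / 2 : ℝ) ^ k * (3 / 2) * (x (n + 2) / x (n + 1))
          = 3 / 2 * ((3 / 2) ^ k * (x (n + 2) / x (n + 1))) := by ring
        _ ≤ 3 / 2 * (x (n + 6 * k + 2) / x (n + 6 * k + 1)) :=
            mul_le_mul_of_nonneg_left i2 (by norm_num)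
        _ ≤ _ := a2
  have hu : 0 < x (n + 2) / x (n + 1) := div_pos h.p2 h.p1
  obtain ⟨k, hk⟩ := pow_unbounded_of_one_lt (2 * T / (x (n + 2) / x (n + 1)))
    (by norm_num : (1 : ℝ) < 3 / 2)
  rw [div_lt_iff₀ hu] at hk
  have h1 := (key k).2
  have h2 := (key k).1.hi
  linarith

lemma grow {x : ℕ → ℝ} (hx : IsSolution (729 / 6400) (20 / 9) x) {T : ℝ} {n : ℕ}
    (h : Arc T (x n) (x (n + 1)) (x (n + 2))) (j : ℕ) :
    ∃ (T' : ℝ) (m : ℕ), 2 ^ j * T ^ 2 ≤ T' ^ 2 ∧ Arc T' (x m) (x (m + 1)) (x (m + 2)) := by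
  induction j with
  | zero => exact ⟨T, n, by simp, h⟩
  | succ j ih =>
    obtain ⟨T1, m, h1, h2⟩ := ih
    obtain ⟨m1, h3, h4⟩ := arc_end hx h2
    obtain ⟨T2, h5, h6, h7, h8⟩ := h3.next (hx.2.2 m1) h4
    refine ⟨T2, m1 + 1, ?_, h8⟩
    calc (2 : ℝ) ^ (j + 1) * T ^ 2 = 2 * (2 ^ j * T ^ 2) := by ring
      _ ≤ 2 * T1 ^ 2 := by linarith
      _ ≤ T2 ^ 2 := h5

lemma unbounded_of {x : ℕ → ℝ} (hx : IsSolution (729 / 6400) (20 / 9) x) (h0 : 0 < x 0)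
    (h01 : x 0 ≤ 1) (h1 : 10 ^ 12 ≤ x 1) (h2 : x 2 = x 1) : ¬ BddAbove (Set.range x) := by
  rintro ⟨B, hB⟩
  have p1 : 0 < x 1 := lt_of_lt_of_le (by norm_num) h1
  have p2 : 0 < x 2 := h2 ▸ p1
  have hW0 : 10 ^ 12 ≤ W (x 1) (x 2) := by
    rw [h2]
    refine h1.trans ?_
    unfold W
    rw [le_div_iff₀ (by positivity)]
    nlinarith [mul_pos p1 p1]
  have hWp := W_pos p1 p2
  have harc : Arc (Real.sqrt (W (x 1) (x 2))) (x 0) (x (0 + 1)) (x (0 + 2)) := by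
    have hT : 1000000 ≤ Real.sqrt (W (x 1) (x 2)) := Real.le_sqrt_of_sq_le (by
      refine le_trans ?_ hW0
      norm_num)
    have hu : x 2 / x 1 = 1 := by
      rw [h2, div_self p1.ne']
    refine ⟨h0, p1, p2, hT, ?_, ?_, ?_, ?_⟩
    · show 1 / (2 * Real.sqrt (W (x 1) (x 2))) ≤ x 2 / x 1
      rw [hu, div_le_one (by linarith)]
      linarith
    · show x 2 / x 1 ≤ _
      rw [hu]
      linarith
    · show |W (x 1) (x 2) - Real.sqrt (W (x 1) (x 2)) ^ 2| ≤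
        9000 * (2 * Real.sqrt (W (x 1) (x 2)) - 1 / (x 2 / x 1) + x 2 / x 1)
      rw [Real.sq_sqrt hWp.le, sub_self, abs_zero, hu]
      linarith
    · show x 0 * x 2 ≤ x 1
      rw [h2]
      nlinarith
  set T0 : ℝ := Real.sqrt (W (x 1) (x 2)) with hT0
  have hT0p : 0 < T0 := lt_of_lt_of_le (by norm_num) harc.hT
  obtain ⟨j, hj⟩ := pow_unbounded_of_one_lt (25 * B / T0 ^ 2) (by norm_num : (1 : ℝ) < 2)
  rw [div_lt_iff₀ (by positivity)] at hj
  obtain ⟨T', m, h3, h4⟩ := grow hx harc j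
  have h5 := h4.W_bounds.1
  have h6 := W_le h4.p1 h4.p2
  have h7 : x (m + 1) ≤ B := hB ⟨_, rfl⟩
  have h8 : x (m + 2) ≤ B := hB ⟨_, rfl⟩
  have h9 : 0 < B := lt_of_lt_of_le p1 (hB ⟨_, rfl⟩)
  linarith

/-- a solution with given initial values -/
noncomputable def sol (p : ℝ × ℝ × ℝ) : ℕ → ℝ × ℝ × ℝ
  | 0 => p
  | n + 1 => ((sol p n).2.1, (sol p n).2.2,
      (729 / 6400 + (sol p n).2.2) / (20 / 9 * (sol p n).2.1 + (sol p n).1))

lemma exists_solution {a b c : ℝ} (ha : 0 < a) (hb : 0 < b) (hc : 0 < c) :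
    ∃ x : ℕ → ℝ, IsSolution (729 / 6400) (20 / 9) x ∧ x 0 = a ∧ x 1 = b ∧ x 2 = c := by
  have hpos : ∀ n, 0 < (sol (a, b, c) n).1 ∧ 0 < (sol (a, b, c) n).2.1 ∧
      0 < (sol (a, b, c) n).2.2 := by
    intro n
    induction n with
    | zero => exact ⟨ha, hb, hc⟩
    | succ n ih =>
      obtain ⟨h1, h2, h3⟩ := ih
      refine ⟨h2, h3, ?_⟩
      show 0 < (729 / 6400 + (sol (a, b, c) n).2.2) /
        (20 / 9 * (sol (a, b, c) n).2.1 + (sol (a, b, c) n).1)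
      positivity
  refine ⟨fun n => (sol (a, b, c) n).1, ⟨⟨ha.le, hb.le, hc.le⟩, fun n => ?_, fun n => rfl⟩,
    rfl, rfl, rfl⟩
  show 0 < 20 / 9 * (sol (a, b, c) n).2.1 + (sol (a, b, c) n).1
  have := hpos n
  linarith [this.1, this.2.1]

/-- **Unbounded solutions exist.**  For `α = 729/6400` and `C = 20/9` every solution whose initial
values satisfy `0 < x_{-2} ≤ 1` and `x_0 = x_{-1} ≥ 10 ^ 12` is unbounded, and there are such
solutions. -/
theorem result :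
    (∀ x : ℕ → ℝ, IsSolution (729 / 6400) (20 / 9) x → 0 < x 0 → x 0 ≤ 1 → 10 ^ 12 ≤ x 1 →
      x 2 = x 1 → ¬ BddAbove (Set.range x)) ∧
    ∃ (α C : ℝ) (x : ℕ → ℝ), 0 < α ∧ 0 < C ∧ IsSolution α C x ∧ ¬ BddAbove (Set.range x) := by
  refine ⟨fun x hx h0 h01 h1 h2 => unbounded_of hx h0 h01 h1 h2, ?_⟩
  obtain ⟨x, hx, e0, e1, e2⟩ := exists_solution (a := 1) (b := 10 ^ 12) (c := 10 ^ 12) one_pos
    (by norm_num) (by norm_num)
  refine ⟨729 / 6400, 20 / 9, x, by norm_num, by norm_num, hx, ?_⟩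
  exact unbounded_of hx (by rw [e0]; norm_num) (by rw [e0]) (by rw [e1]) (by rw [e1, e2])

end Pool.Agent.Results.MP_db9acb_an.Unbounded
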